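import Mathlib

/-!
Subsequential limits of crossing probabilities of rectangles: the abstract part.
-/

namespace Pool.Agent.X127.AR

open Filter Topology

/-- The properties of the crossing probabilities which are used. -/
structure Cross (p : ℕ → ℕ → ℝ) : Prop where
  nonneg : ∀ w h, 0 ≤ p w h
  le_one : ∀ w h, p w h ≤ 1
  anti : ∀ w w' h, 1 ≤ w → w ≤ w' → p w' h ≤ p w h
  ord : ∀ K : ℕ, 1 ≤ K → ∃ c C : ℝ, 0 < c ∧ 0 < C ∧ ∀ w h : ℕ, 1 ≤ w → 1 ≤ h → h ≤ K * w →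
    c * p w h / h ≤ p w h - p (w + 1) h ∧ p w h - p (w + 1) h ≤ C * p w h / h
  bdd : ∀ K : ℕ, 1 ≤ K → ∃ C : ℝ, 0 < C ∧ ∀ w h : ℕ, 2 ≤ w → 1 ≤ h → w ≤ K * h → h ≤ K * w →
    p w h - p (w + 1) h ≤ C / h ∧ p w (h + 1) - p w h ≤ C / w
  mono : ∀ w h, 1 ≤ w → p w h ≤ p w (h + 1)
  dual : ∀ w h, p (w + 1) h + p (h + 1) w = 1
  low : ∀ K : ℕ, 1 ≤ K → ∃ c : ℝ, 0 < c ∧ ∀ w h : ℕ, 1 ≤ w → 1 ≤ h → w ≤ K * h → c ≤ p w h
  har : ∀ w w' h, 1 ≤ w → w ≤ w' →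
    (1 - p (w + 1) h) * (p w' h - p (w' + 1) h) ≤ p w h - p (w + 1) h
  scal : ∀ K : ℕ, 1 ≤ K → ∃ C : ℝ, 0 < C ∧
    (∀ L L' l : ℝ, 1 / (K:ℝ) ≤ L → L < L' → L' ≤ K → 1 / (K:ℝ) ≤ l → l ≤ K →
      ∀ᶠ n : ℕ in atTop, |p ⌊L * n⌋₊ ⌊l * n⌋₊ - p ⌊L' * n⌋₊ ⌊l * n⌋₊| ≤ C * (L' - L)) ∧
    (∀ L l l' : ℝ, 1 / (K:ℝ) ≤ L → L ≤ K → 1 / (K:ℝ) ≤ l → l < l' → l' ≤ K →
      ∀ᶠ n : ℕ in atTop, |p ⌊L * n⌋₊ ⌊l' * n⌋₊ - p ⌊L * n⌋₊ ⌊l * n⌋₊| ≤ C * (l' - l))

/-- `f` is the limit of the crossing probabilities along the scales `ν k`. -/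
def LimAlong (p : ℕ → ℕ → ℝ) (ν : ℕ → ℕ) (f : ℝ → ℝ → ℝ) : Prop :=
  ∀ L l : ℝ, 0 < L → 0 < l → Tendsto (fun k => p ⌊L * ν k⌋₊ ⌊l * ν k⌋₊) atTop (𝓝 (f L l))

theorem iter_up {g : ℕ → ℝ} {x : ℝ} (g0 : ∀ i, 0 ≤ g i) (w N : ℕ)
    (h : ∀ i, w ≤ i → i < w + N → x * g i ≤ g i - g (i + 1)) :
    g (w + N) ≤ g w * Real.exp (-(x * N)) := by
  induction N with
  | zero => simp
  | succ N ih =>
    have h1 := ih (fun i hi hi2 => h i hi (by omega))
    have h2 := h (w + N) (by omega) (by omega)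
    have h3 : g (w + N + 1) ≤ g (w + N) * Real.exp (-x) := by
      have h4 := Real.one_sub_le_exp_neg x
      nlinarith [g0 (w + N)]
    calc g (w + (N + 1)) = g (w + N + 1) := by ring_nf
      _ ≤ g (w + N) * Real.exp (-x) := h3
      _ ≤ (g w * Real.exp (-(x * N))) * Real.exp (-x) :=
        mul_le_mul_of_nonneg_right h1 (Real.exp_nonneg _)
      _ = g w * Real.exp (-(x * ((N + 1 : ℕ) : ℝ))) := by
        rw [mul_assoc, ← Real.exp_add]; push_cast; ring_nf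

theorem exp_le {x : ℝ} (hx : 0 ≤ x) (hx2 : x ≤ 1 / 2) : Real.exp (-(2 * x)) ≤ 1 - x := by
  have h1 := Real.add_one_le_exp (2 * x)
  have h2 : 0 < Real.exp (2 * x) := Real.exp_pos _
  rw [Real.exp_neg, inv_le_comm₀ h2 (by linarith)]
  refine le_trans ?_ h1
  rw [inv_le_iff_one_le_mul₀ (by linarith)]
  nlinarith

theorem iter_low {g : ℕ → ℝ} {x : ℝ} (hx : 0 ≤ x) (hx2 : x ≤ 1 / 2) (g0 : ∀ i, 0 ≤ g i) (w N : ℕ)
    (h : ∀ i, w ≤ i → i < w + N → g i - g (i + 1) ≤ x * g i) :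
    g w * Real.exp (-(2 * x * N)) ≤ g (w + N) := by
  induction N with
  | zero => simp
  | succ N ih =>
    have h1 := ih (fun i hi hi2 => h i hi (by omega))
    have h2 := h (w + N) (by omega) (by omega)
    have h3 : g (w + N) * Real.exp (-(2 * x)) ≤ g (w + N + 1) := by
      have h4 := exp_le hx hx2
      nlinarith [g0 (w + N)]
    calc g w * Real.exp (-(2 * x * ((N + 1 : ℕ) : ℝ)))
        = (g w * Real.exp (-(2 * x * N))) * Real.exp (-(2 * x)) := by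
          rw [mul_assoc (g w), ← Real.exp_add]; push_cast; ring_nf
      _ ≤ g (w + N) * Real.exp (-(2 * x)) := mul_le_mul_of_nonneg_right h1 (Real.exp_nonneg _)
      _ ≤ g (w + (N + 1)) := h3

theorem fl_tendsto {ν : ℕ → ℕ} (hν : Tendsto ν atTop atTop) {L : ℝ} (hL : 0 < L) :
    Tendsto (fun k => ⌊L * ν k⌋₊) atTop atTop :=
  tendsto_nat_floor_atTop.comp
    (Tendsto.const_mul_atTop hL (tendsto_natCast_atTop_atTop.comp hν))

theorem ratio1 {ν : ℕ → ℕ} (hν : Tendsto ν atTop atTop) {L : ℝ} (hL : 0 ≤ L) :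
    Tendsto (fun k => (⌊L * ν k⌋₊ : ℝ) / ν k) atTop (𝓝 L) :=
  (tendsto_nat_floor_mul_div_atTop hL).comp (tendsto_natCast_atTop_atTop.comp hν)

theorem ratio {ν : ℕ → ℕ} (hν : Tendsto ν atTop atTop) {L l : ℝ} (hL : 0 ≤ L) (hl : 0 < l) :
    Tendsto (fun k => (⌊L * ν k⌋₊ : ℝ) / ⌊l * ν k⌋₊) atTop (𝓝 (L / l)) := by
  have h1 := (ratio1 hν hL).div (ratio1 hν hl.le) hl.ne'
  refine h1.congr' ?_
  filter_upwards [hν.eventually_gt_atTop 0] with k hk
  have : (0:ℝ) < ν k := by exact_mod_cast hk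
  simp only [Pi.div_apply]
  rw [div_div_div_cancel_right₀ this.ne']

/-- Compactness. -/
theorem exists_limit {p : ℕ → ℕ → ℝ} (H : Cross p) {ν : ℕ → ℕ} (hν : Tendsto ν atTop atTop) :
    ∃ φ : ℕ → ℕ, StrictMono φ ∧ ∃ f : ℝ → ℝ → ℝ, LimAlong p (fun k => ν (φ k)) f := by
  let A : ℕ → (ℚ × ℚ → Set.Icc (0:ℝ) 1) := fun k q =>
    ⟨p ⌊(q.1:ℝ) * ν k⌋₊ ⌊(q.2:ℝ) * ν k⌋₊, H.nonneg _ _, H.le_one _ _⟩
  obtain ⟨a, φ, hφ, hlim⟩ := CompactSpace.tendsto_subseq A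
  refine ⟨φ, hφ, ?_⟩
  have hνφ : Tendsto (fun k => ν (φ k)) atTop atTop := hν.comp hφ.tendsto_atTop
  have hq : ∀ q r : ℚ, Tendsto (fun k => p ⌊(q:ℝ) * ν (φ k)⌋₊ ⌊(r:ℝ) * ν (φ k)⌋₊) atTop
      (𝓝 (a (q, r) : ℝ)) := by
    intro q r
    have h1 := (tendsto_pi_nhds.mp hlim) (q, r)
    exact (continuous_subtype_val.tendsto _).comp h1
  have key : ∀ L l : ℝ, 0 < L → 0 < l → ∃ y : ℝ,
      Tendsto (fun k => p ⌊L * ν (φ k)⌋₊ ⌊l * ν (φ k)⌋₊) atTop (𝓝 y) := by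
    intro L l hL hl
    apply cauchySeq_tendsto_of_complete
    rw [Metric.cauchySeq_iff']
    intro ε hε
    obtain ⟨K, hK⟩ : ∃ K : ℕ, max (max (1 / L) (1 / l)) (max (L + 1) (l + 1)) ≤ K :=
      exists_nat_ge _
    have k1 : 1 / L ≤ K := (le_max_left _ _).trans ((le_max_left _ _).trans hK)
    have k2 : 1 / l ≤ K := (le_max_right _ _).trans ((le_max_left _ _).trans hK)
    have k3 : L + 1 ≤ K := (le_max_left _ _).trans ((le_max_right _ _).trans hK)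
    have k4 : l + 1 ≤ K := (le_max_right _ _).trans ((le_max_right _ _).trans hK)
    have hK1 : 1 ≤ K := by
      have : (1:ℝ) ≤ K := by linarith
      exact_mod_cast this
    have hKr : (0:ℝ) < K := by exact_mod_cast hK1
    obtain ⟨C, hC, s1, s2⟩ := H.scal K hK1
    obtain ⟨δ, hδ, hδ1, hδ2⟩ : ∃ δ : ℝ, 0 < δ ∧ δ ≤ 1 ∧ C * δ ≤ ε / 8 := by
      refine ⟨min 1 (ε / (8 * C)), by positivity, min_le_left _ _, ?_⟩
      calc C * min 1 (ε / (8 * C)) ≤ C * (ε / (8 * C)) :=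
            mul_le_mul_of_nonneg_left (min_le_right _ _) hC.le
        _ = ε / 8 := by field_simp
    obtain ⟨q, hq1, hq2⟩ := exists_rat_btwn (show L < L + δ by linarith)
    obtain ⟨r, hr1, hr2⟩ := exists_rat_btwn (show l < l + δ by linarith)
    have kL : 1 / (K:ℝ) ≤ L := by
      rw [div_le_iff₀ hKr]; rw [div_le_iff₀ hL] at k1; linarith
    have kl : 1 / (K:ℝ) ≤ l := by
      rw [div_le_iff₀ hKr]; rw [div_le_iff₀ hl] at k2; linarith
    have e1 := hνφ.eventually (s1 L q l kL hq1 (by linarith) kl (by linarith))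
    have e2 := hνφ.eventually (s2 q l r (by linarith) (by linarith) kl hr1 (by linarith))
    have e3 := (Metric.tendsto_atTop.mp (hq q r)) (ε / 4) (by positivity)
    obtain ⟨N3, e3⟩ := e3
    obtain ⟨N, hN⟩ := eventually_atTop.mp (e1.and (e2.and (eventually_ge_atTop N3)))
    have hall : ∀ n ≥ N, |p ⌊L * ν (φ n)⌋₊ ⌊l * ν (φ n)⌋₊ - (a (q, r) : ℝ)| < ε / 2 := by
      intro n hn
      obtain ⟨f1, f2, f3⟩ := hN n hn
      have f4 := e3 n f3
      rw [Real.dist_eq] at f4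
      have g1 : C * ((q:ℝ) - L) ≤ ε / 8 :=
        (mul_le_mul_of_nonneg_left (by linarith) hC.le).trans hδ2
      have g2 : C * ((r:ℝ) - l) ≤ ε / 8 :=
        (mul_le_mul_of_nonneg_left (by linarith) hC.le).trans hδ2
      rw [abs_le] at f1 f2
      rw [abs_lt] at f4 ⊢
      constructor <;> linarith [f1.1, f1.2, f2.1, f2.2, f4.1, f4.2]
    refine ⟨N, fun n hn => ?_⟩
    have h1 := hall n hn
    have h2 := hall N le_rfl
    rw [Real.dist_eq]
    rw [abs_lt] at h1 h2 ⊢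
    constructor <;> linarith [h1.1, h1.2, h2.1, h2.2]
  choose! f hf using fun L l (h : 0 < L ∧ 0 < l) => key L l h.1 h.2
  exact ⟨f, fun L l hL hl => hf L l ⟨hL, hl⟩⟩

variable {p : ℕ → ℕ → ℝ} {ν : ℕ → ℕ} {f : ℝ → ℝ → ℝ}

/-- The exponential bounds for the limits. -/
theorem exp_bounds (H : Cross p) (K : ℕ) (hK : 1 ≤ K) : ∃ c C : ℝ, 0 < c ∧ 0 < C ∧
    (∀ w h : ℕ, 1 ≤ w → 1 ≤ h → h ≤ K * w →
      c * p w h / h ≤ p w h - p (w + 1) h ∧ p w h - p (w + 1) h ≤ C * p w h / h) ∧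
    ∀ (ν : ℕ → ℕ) (f : ℝ → ℝ → ℝ), Tendsto ν atTop atTop → LimAlong p ν f →
      ∀ L L' l : ℝ, 0 < L → L ≤ L' → 0 < l → l ≤ K * L →
        f L l * Real.exp (-(C * (L' - L) / l)) ≤ f L' l ∧
          f L' l ≤ f L l * Real.exp (-(c * (L' - L) / l)) := by
  obtain ⟨c, C, hc, hC, ho⟩ := H.ord (2 * K) (by omega)
  have hKr : (1:ℝ) ≤ K := by exact_mod_cast hK
  refine ⟨c, 2 * C, hc, by positivity, ?_, ?_⟩
  · intro w h hw hh hwh
    obtain ⟨h1, h2⟩ := ho w h hw hh (by nlinarith)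
    refine ⟨h1, h2.trans ?_⟩
    have h3 : (0:ℝ) < h := by exact_mod_cast hh
    apply div_le_div_of_nonneg_right _ h3.le
    nlinarith [mul_nonneg hC.le (H.nonneg w h)]
  · intro ν f hν hf L L' l hL hLL hl hlK
    have hL' : 0 < L' := lt_of_lt_of_le hL hLL
    have t1 := hf L l hL hl
    have t2 := hf L' l hL' hl
    have t3 : Tendsto (fun k => ((⌊L' * ν k⌋₊ : ℝ) - ⌊L * ν k⌋₊) / ⌊l * ν k⌋₊) atTop
        (𝓝 ((L' - L) / l)) := by
      have h1 := (ratio hν hL'.le hl).sub (ratio hν hL.le hl)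
      rw [← sub_div] at h1
      exact h1.congr (fun k => (sub_div _ _ _).symm)
    -- the discrete inequalities
    have ev : ∀ᶠ k in atTop, 1 ≤ ⌊L * ν k⌋₊ ∧ 1 ≤ ⌊l * ν k⌋₊ ∧ 2 * C ≤ ⌊l * ν k⌋₊ ∧
        0 < ν k := by
      have a1 := (fl_tendsto hν hL).eventually_ge_atTop 1
      have a2 := (fl_tendsto hν hl).eventually_ge_atTop 1
      have a3 := (fl_tendsto hν hl).eventually_ge_atTop ⌈2 * C⌉₊
      filter_upwards [a1, a2, a3, hν.eventually_gt_atTop 0] with k b1 b2 b3 b4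
      exact ⟨b1, b2, (Nat.le_ceil _).trans (by exact_mod_cast b3), b4⟩
    have asp : ∀ᶠ k in atTop, ∀ i, ⌊L * ν k⌋₊ ≤ i → ⌊l * ν k⌋₊ ≤ 2 * K * i := by
      filter_upwards [ev] with k hk i hi
      obtain ⟨b1, b2, -, b4⟩ := hk
      have c1 : (⌊l * ν k⌋₊ : ℝ) ≤ l * ν k := Nat.floor_le (by positivity)
      have c2 := Nat.lt_floor_add_one (L * ν k)
      have c3 : (1:ℝ) ≤ (⌊L * ν k⌋₊ : ℝ) := by exact_mod_cast b1
      have c4 : (⌊L * ν k⌋₊ : ℝ) ≤ i := by exact_mod_cast hi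
      have c5 : l * ν k ≤ K * L * ν k := mul_le_mul_of_nonneg_right hlK (Nat.cast_nonneg _)
      have c6 : (⌊l * ν k⌋₊ : ℝ) ≤ ((2 * K * i : ℕ) : ℝ) := by
        push_cast
        calc (⌊l * ν k⌋₊ : ℝ) ≤ K * (L * ν k) := by linarith
          _ ≤ K * (2 * i) := by
            apply mul_le_mul_of_nonneg_left _ (by linarith)
            linarith
          _ = 2 * K * i := by ring
      exact_mod_cast c6
    constructor
    · have t4 : Tendsto (fun k => p ⌊L * ν k⌋₊ ⌊l * ν k⌋₊ * Real.exp (-(2 * C *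
          (((⌊L' * ν k⌋₊ : ℝ) - ⌊L * ν k⌋₊) / ⌊l * ν k⌋₊)))) atTop
          (𝓝 (f L l * Real.exp (-(2 * C * ((L' - L) / l))))) :=
        t1.mul ((Real.continuous_exp.tendsto _).comp ((t3.const_mul _).neg))
      rw [mul_div_assoc]
      refine le_of_tendsto_of_tendsto t4 t2 ?_
      filter_upwards [ev, asp] with k hk hasp
      obtain ⟨b1, b2, b3, b4⟩ := hk
      have hle : ⌊L * ν k⌋₊ ≤ ⌊L' * ν k⌋₊ :=
        Nat.floor_le_floor (mul_le_mul_of_nonneg_right hLL (Nat.cast_nonneg _))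
      obtain ⟨N, hN⟩ := Nat.exists_eq_add_of_le hle
      generalize ⌊L * ν k⌋₊ = w at *
      generalize ⌊l * ν k⌋₊ = h at *
      rw [hN]
      have hh0 : (0:ℝ) < h := by exact_mod_cast b2
      have h1 := iter_low (g := fun i => p i h) (x := C / h) (by positivity)
        (by rw [div_le_iff₀ hh0]; linarith) (fun i => H.nonneg _ _) w N (fun i hi _ => by
          have := (ho i h (by omega) b2 (hasp i hi)).2
          rw [mul_div_right_comm] at this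
          exact this)
      have e1 : 2 * C * (((w + N : ℕ) : ℝ) - w) / h = 2 * (C / h) * N := by
        push_cast
        ring
      rw [← mul_div_assoc, e1]
      exact h1
    · have t4 : Tendsto (fun k => p ⌊L * ν k⌋₊ ⌊l * ν k⌋₊ * Real.exp (-(c *
          (((⌊L' * ν k⌋₊ : ℝ) - ⌊L * ν k⌋₊) / ⌊l * ν k⌋₊)))) atTop
          (𝓝 (f L l * Real.exp (-(c * ((L' - L) / l))))) :=
        t1.mul ((Real.continuous_exp.tendsto _).comp ((t3.const_mul _).neg))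
      rw [mul_div_assoc]
      refine le_of_tendsto_of_tendsto t2 t4 ?_
      filter_upwards [ev, asp] with k hk hasp
      obtain ⟨b1, b2, b3, b4⟩ := hk
      have hle : ⌊L * ν k⌋₊ ≤ ⌊L' * ν k⌋₊ :=
        Nat.floor_le_floor (mul_le_mul_of_nonneg_right hLL (Nat.cast_nonneg _))
      obtain ⟨N, hN⟩ := Nat.exists_eq_add_of_le hle
      generalize ⌊L * ν k⌋₊ = w at *
      generalize ⌊l * ν k⌋₊ = h at *
      rw [hN]
      have hh0 : (0:ℝ) < h := by exact_mod_cast b2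
      have h1 := iter_up (g := fun i => p i h) (x := c / h) (fun i => H.nonneg _ _) w N
        (fun i hi _ => by
          have := (ho i h (by omega) b2 (hasp i hi)).1
          rw [mul_div_right_comm] at this
          exact this)
      have e1 : c * (((w + N : ℕ) : ℝ) - w) / h = c / h * N := by
        push_cast
        ring
      rw [← mul_div_assoc, e1]
      exact h1

/-- Aspect ratios stay bounded. -/
theorem aspect (hν : Tendsto ν atTop atTop) {L l : ℝ} (hL : 0 < L) (hl : 0 < l) :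
    ∃ K : ℕ, 1 ≤ K ∧ ∀ᶠ k in atTop, 3 ≤ ⌊L * ν k⌋₊ ∧ 3 ≤ ⌊l * ν k⌋₊ ∧
      ⌊L * ν k⌋₊ + 2 ≤ K * (⌊l * ν k⌋₊ - 2) ∧ ⌊l * ν k⌋₊ + 2 ≤ K * (⌊L * ν k⌋₊ - 2) := by
  have one : ∀ L l : ℝ, 0 < L → 0 < l → ∀ K : ℕ, 5 * (L / l + 1) ≤ K → ∀ᶠ k in atTop,
      ⌊L * ν k⌋₊ + 2 ≤ K * (⌊l * ν k⌋₊ - 2) := by
    intro L l hL hl K hK
    have r := (ratio hν hL.le hl).eventually_le_const (show L / l < L / l + 1 by linarith)
    filter_upwards [r, (fl_tendsto hν hl).eventually_ge_atTop 3] with k h1 h2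
    obtain ⟨m, hm⟩ := Nat.exists_eq_add_of_le h2
    generalize ⌊L * ν k⌋₊ = w at *
    generalize ⌊l * ν k⌋₊ = h at *
    subst hm
    have h3 : (0:ℝ) < ((3 + m : ℕ) : ℝ) := by positivity
    rw [div_le_iff₀ h3] at h1
    have h4 : (0:ℝ) < L / l := by positivity
    have e : 3 + m - 2 = m + 1 := by omega
    rw [e]
    have : ((w + 2 : ℕ) : ℝ) ≤ ((K * (m + 1) : ℕ) : ℝ) := by
      push_cast at h1 ⊢
      have hm0 : (0:ℝ) ≤ m := Nat.cast_nonneg m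
      calc (w:ℝ) + 2 ≤ (L / l + 1) * (3 + m) + 2 := by linarith
        _ ≤ 5 * (L / l + 1) * (m + 1) := by nlinarith
        _ ≤ K * (m + 1) := mul_le_mul_of_nonneg_right hK (by linarith)
    exact_mod_cast this
  obtain ⟨K, hK⟩ : ∃ K : ℕ, max (5 * (L / l + 1)) (5 * (l / L + 1)) ≤ K := exists_nat_ge _
  have k1 := (le_max_left _ _).trans hK
  have k2 := (le_max_right _ _).trans hK
  refine ⟨K, ?_, ?_⟩
  · have h4 : (0:ℝ) < L / l := by positivity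
    have : (1:ℝ) ≤ K := by linarith
    exact_mod_cast this
  · filter_upwards [one L l hL hl K k1, one l L hl hL K k2,
      (fl_tendsto hν hL).eventually_ge_atTop 3, (fl_tendsto hν hl).eventually_ge_atTop 3]
      with k a b c d
    exact ⟨c, d, a, b⟩

theorem inv_tendsto (hν : Tendsto ν atTop atTop) {L : ℝ} (hL : 0 < L) (C : ℝ) (s : ℝ) :
    Tendsto (fun k => C / ((⌊L * ν k⌋₊ : ℝ) - s)) atTop (𝓝 0) := by
  apply Tendsto.div_atTop tendsto_const_nhds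
  exact tendsto_atTop_add_const_right _ _ (tendsto_natCast_atTop_atTop.comp (fl_tendsto hν hL))

/-- Duality of the limits. -/
theorem limit_dual (H : Cross p) (hν : Tendsto ν atTop atTop) (hf : LimAlong p ν f) {L l : ℝ}
    (hL : 0 < L) (hl : 0 < l) : f L l + f l L = 1 := by
  have t1 := (hf L l hL hl).add (hf l L hl hL)
  obtain ⟨K, hK, ev⟩ := aspect hν hL hl
  obtain ⟨C, hC, hb⟩ := H.bdd K hK
  have t2 : Tendsto (fun k => 1 + (C / ((⌊l * ν k⌋₊ : ℝ) - 0) + C / ((⌊L * ν k⌋₊ : ℝ) - 1)))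
      atTop (𝓝 (1 + (0 + 0))) :=
    ((inv_tendsto hν hl C 0).add (inv_tendsto hν hL C 1)).const_add 1
  apply le_antisymm
  · have h := le_of_tendsto_of_tendsto t1 t2 (by
      filter_upwards [ev] with k hk
      obtain ⟨b1, b2, b3, b4⟩ := hk
      generalize ⌊L * ν k⌋₊ = w at *
      generalize ⌊l * ν k⌋₊ = h at *
      obtain ⟨m, rfl⟩ := Nat.exists_eq_add_of_le b1
      obtain ⟨j, rfl⟩ := Nat.exists_eq_add_of_le b2
      have e1 : 3 + m - 2 = m + 1 := by omega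
      have e2 : 3 + j - 2 = j + 1 := by omega
      rw [e2] at b3
      rw [e1] at b4
      have d := H.dual (2 + m) (3 + j)
      have c1 := (hb (3 + j) (2 + m) (by omega) (by omega) (by nlinarith) (by nlinarith)).1
      have c2 := (hb (3 + j) (2 + m) (by omega) (by omega) (by nlinarith) (by nlinarith)).2
      have e3 : 2 + m + 1 = 3 + m := by ring
      rw [e3] at d c2
      have e4 : ((3 + m : ℕ) : ℝ) - 1 = ((2 + m : ℕ) : ℝ) := by push_cast; ring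
      rw [e4, sub_zero]
      linarith)
    simpa using h
  · refine ge_of_tendsto t1 ?_
    filter_upwards [ev] with k hk
    obtain ⟨b1, b2, b3, b4⟩ := hk
    generalize ⌊L * ν k⌋₊ = w at *
    generalize ⌊l * ν k⌋₊ = h at *
    obtain ⟨m, rfl⟩ := Nat.exists_eq_add_of_le b1
    have d := H.dual (2 + m) h
    have c1 := H.mono h (2 + m) (by omega)
    have c2 := H.anti h (h + 1) (2 + m) (by omega) (by omega)
    have e3 : 2 + m + 1 = 3 + m := by ring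
    rw [e3] at d c1
    linarith

/-- The limits are positive. -/
theorem limit_pos (H : Cross p) (hν : Tendsto ν atTop atTop) (hf : LimAlong p ν f) {L l : ℝ}
    (hL : 0 < L) (hl : 0 < l) : 0 < f L l := by
  obtain ⟨K, hK, ev⟩ := aspect hν hL hl
  obtain ⟨c, hc, hb⟩ := H.low K hK
  refine lt_of_lt_of_le hc (ge_of_tendsto (hf L l hL hl) ?_)
  filter_upwards [ev] with k hk
  obtain ⟨b1, b2, b3, b4⟩ := hk
  refine hb _ _ (by omega) (by omega) ?_
  have : K * (⌊l * ν k⌋₊ - 2) ≤ K * ⌊l * ν k⌋₊ := Nat.mul_le_mul_left _ (by omega)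
  omega

theorem har_sum (H : Cross p) {w w' : ℕ} (h : ℕ) (hw : 1 ≤ w) (hww : w ≤ w') (N : ℕ) :
    (1 - p w h) * (p w' h - p (w' + N) h) ≤ p w h - p (w + N) h := by
  induction N with
  | zero => simp
  | succ N ih =>
    have h1 := H.har (w + N) (w' + N) h (by omega) (by omega)
    have h2 := H.anti w (w + N + 1) h hw (by omega)
    have h3 := H.anti (w' + N) (w' + N + 1) h (by omega) (by omega)
    have h4 : (1 - p w h) * (p (w' + N) h - p (w' + N + 1) h) ≤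
        (1 - p (w + N + 1) h) * (p (w' + N) h - p (w' + N + 1) h) :=
      mul_le_mul_of_nonneg_right (by linarith) (by linarith)
    rw [← add_assoc, ← add_assoc]
    nlinarith

/-- The Harnack inequality for the limits. -/
theorem limit_har (H : Cross p) (hν : Tendsto ν atTop atTop) (hf : LimAlong p ν f)
    {L L' l t : ℝ} (hL : 0 < L) (hLL : L ≤ L') (hl : 0 < l) (ht : 0 ≤ t) :
    (1 - f L l) * (f L' l - f (L' + t) l) ≤ f L l - f (L + t) l := by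
  have hL' : 0 < L' := lt_of_lt_of_le hL hLL
  have hLt : 0 < L + t := by linarith
  have hLt' : 0 < L' + t := by linarith
  have t1 := hf L l hL hl
  have t2 := hf L' l hL' hl
  have t3 := hf (L' + t) l hLt' hl
  have t4 := hf (L + t) l hLt hl
  obtain ⟨K, hK, ev⟩ := aspect hν hLt hl
  obtain ⟨C, hC, hb⟩ := H.bdd K hK
  have t5 := inv_tendsto hν hl C 0
  have t6 := (t1.const_sub 1).mul (t2.sub t3)
  have t7 := (t1.sub t4).add t5
  have h := le_of_tendsto_of_tendsto t6 t7 (by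
    filter_upwards [ev, (fl_tendsto hν hL).eventually_ge_atTop 1] with k hk hk2
    obtain ⟨b1, b2, b3, b4⟩ := hk
    have f1 : ⌊L * ν k⌋₊ ≤ ⌊L' * ν k⌋₊ :=
      Nat.floor_le_floor (mul_le_mul_of_nonneg_right hLL (Nat.cast_nonneg _))
    have f2 : ⌊L' * ν k⌋₊ ≤ ⌊(L' + t) * ν k⌋₊ :=
      Nat.floor_le_floor (mul_le_mul_of_nonneg_right (by linarith) (Nat.cast_nonneg _))
    obtain ⟨N, hN⟩ := Nat.exists_eq_add_of_le f2
    have f3 : ⌊L * ν k⌋₊ + N ≤ ⌊(L + t) * ν k⌋₊ + 1 := by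
      have g1 : (⌊(L' + t) * ν k⌋₊ : ℝ) ≤ (L' + t) * ν k :=
        Nat.floor_le (by positivity)
      have g2 := Nat.lt_floor_add_one (L' * ν k)
      have g3 : (⌊L * ν k⌋₊ : ℝ) ≤ L * ν k := Nat.floor_le (by positivity)
      have g4 := Nat.lt_floor_add_one ((L + t) * ν k)
      have g5 : (⌊(L' + t) * ν k⌋₊ : ℝ) = ⌊L' * ν k⌋₊ + N := by rw [hN]; push_cast; ring
      have g6 : ((⌊L * ν k⌋₊ + N : ℕ) : ℝ) < ((⌊(L + t) * ν k⌋₊ + 2 : ℕ) : ℝ) := by
        push_cast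
        nlinarith
      have g7 : ⌊L * ν k⌋₊ + N < ⌊(L + t) * ν k⌋₊ + 2 := by exact_mod_cast g6
      omega
    have c0 := har_sum H (w := ⌊L * ν k⌋₊) (w' := ⌊L' * ν k⌋₊) ⌊l * ν k⌋₊ hk2 f1 N
    rw [← hN] at c0
    have c1 := H.anti (⌊L * ν k⌋₊ + N) (⌊(L + t) * ν k⌋₊ + 1) ⌊l * ν k⌋₊ (by omega) f3
    have c2 := (hb ⌊(L + t) * ν k⌋₊ ⌊l * ν k⌋₊ (by omega) (by omega) (by
      have : K * (⌊l * ν k⌋₊ - 2) ≤ K * ⌊l * ν k⌋₊ := Nat.mul_le_mul_left _ (by omega)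
      omega) (by
      have : K * (⌊(L + t) * ν k⌋₊ - 2) ≤ K * ⌊(L + t) * ν k⌋₊ :=
        Nat.mul_le_mul_left _ (by omega)
      omega)).1
    rw [sub_zero]
    linarith)
  rw [add_zero] at h
  exact h

end Pool.Agent.X127.AR
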