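import Pool.Agent.H974R2.Cross

/-!
Crossing probabilities of rectangles by critical bond percolation on the square lattice.
-/

namespace Pool.Agent.X127.AR

open Finset

/-- The bonds of the square lattice: `(x, y, true)` joins `(x, y)` and `(x + 1, y)`, and
`(x, y, false)` joins `(x, y)` and `(x, y + 1)`. -/
abbrev Bond := ℤ × ℤ × Bool

/-- The first end of a bond. -/
def end₁ (e : Bond) : ℤ × ℤ := (e.1, e.2.1)

/-- The second end of a bond. -/
def end₂ (e : Bond) : ℤ × ℤ := if e.2.2 then (e.1 + 1, e.2.1) else (e.1, e.2.1 + 1)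

/-- The bonds of the rectangle `[0, w] × [0, h]`. -/
noncomputable def box (w h : ℕ) : Finset Bond :=
  (Icc (0:ℤ) w ×ˢ (Icc (0:ℤ) h ×ˢ univ)).filter
    (fun e => if e.2.2 then e.1 < w else e.2.1 < h)

/-- `u` and `v` are joined by a path of bonds of `F`. -/
def Linked (F : Finset Bond) (u v : ℤ × ℤ) : Prop :=
  Relation.ReflTransGen
    (fun a b => ∃ e ∈ F, (end₁ e = a ∧ end₂ e = b) ∨ (end₁ e = b ∧ end₂ e = a)) u v

/-- The left side of the rectangle is joined to its right side by bonds of `F`. -/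
def Crossed (w h : ℕ) (F : Finset Bond) : Prop :=
  ∃ y y' : ℤ, (0 ≤ y ∧ y ≤ h) ∧ (0 ≤ y' ∧ y' ≤ h) ∧ Linked F (0, y) (w, y')

open Classical in
/-- The probability that the rectangle `[0, w] × [0, h]` is crossed from left to right when each
of its bonds is open with probability `1/2`, independently: the proportion of the sets of bonds
which cross it. -/
noncomputable def crossProb (w h : ℕ) : ℝ :=
  (((box w h).powerset.filter (Crossed w h)).card : ℝ) / 2 ^ (box w h).card

theorem box_eq (w h : ℕ) : box w h = H974.RE 0 w 0 h := rfl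

theorem linked_iff (F : Finset Bond) (u v : ℤ × ℤ) : Linked F u v ↔ H974.Reach (↑F) u v := by
  rfl

theorem crossed_iff {w h : ℕ} {F : Finset Bond} (hF : F ⊆ box w h) :
    Crossed w h F ↔ H974.LRc 0 w 0 h F := by
  constructor
  · rintro ⟨y, y', h1, h2, h3⟩
    rcases Nat.eq_zero_or_pos w with hw | hw
    · subst hw
      exact ⟨0, 0, ⟨le_rfl, by positivity⟩, ⟨le_rfl, by positivity⟩, H974.Reach.refl _ _⟩
    · rw [linked_iff] at h3
      rw [box_eq] at hF
      obtain ⟨y1, y2, g1, g2, g3, -⟩ := H974.sub_LR (a := 0) (b := w) (c := 0) (d := h)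
        (by exact_mod_cast hw)
        (fun x y he _ _ => by
          have := H974.mem_RE_true.mp (hF he)
          exact ⟨this.2.2.1, this.2.2.2⟩)
        (fun x y he _ _ => by
          have := H974.mem_RE_false.mp (hF he)
          exact ⟨this.2.2.1, this.2.2.2⟩) h3 le_rfl le_rfl
      exact ⟨y1, y2, g1, g2, g3⟩
  · rintro ⟨y, y', h1, h2, h3⟩
    exact ⟨y, y', h1, h2, h3.mono Set.inter_subset_left⟩

theorem crossProb_eq (w h : ℕ) : crossProb w h = H974.hh (1/2) w h := by
  classical
  unfold H974.hh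
  rw [← H974.pr_LRc0 (1/2) (S := box w h) (by rw [box_eq]; exact H974.LRE_subset_RE)]
  unfold H974.Pr H974.Ex crossProb
  have h1 : ∀ F ∈ (box w h).powerset,
      (∏ e ∈ F, (1/2:ℝ)) * (∏ e ∈ box w h \ F, (1 - 1/2:ℝ)) *
        H974.ind (H974.LRc 0 w 0 h F) = (1/2) ^ (box w h).card *
        (if Crossed w h F then 1 else 0) := by
    intro F hF
    rw [mem_powerset] at hF
    have e1 : (1:ℝ) - 1/2 = 1/2 := by norm_num
    rw [e1, prod_const, prod_const, ← pow_add, add_comm, card_sdiff_add_card_eq_card hF]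
    congr 1
    unfold H974.ind
    simp only [crossed_iff hF]
  rw [sum_congr rfl h1, ← mul_sum, sum_boole, one_div, inv_pow, div_eq_inv_mul]

end Pool.Agent.X127.AR
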