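import Pool.Agent.W424.AR.Bdd
import Pool.Agent.X127.AR.Defs
import Pool.Agent.X127.AR.Abs

/-!
The crossing probabilities of critical bond percolation have the properties `Cross`.
-/

namespace Pool.Agent.X127.AR

open Filter Topology Pool.Agent.W424.AR

theorem cross_crossProb : Cross crossProb where
  nonneg w h := by
    rw [crossProb_eq]; exact H974.hh_nonneg (by norm_num) (by norm_num) _ _
  le_one w h := by
    rw [crossProb_eq]; exact H974.hh_le_one (by norm_num) (by norm_num) _ _
  anti w w' h hw hww := by
    rw [crossProb_eq, crossProb_eq]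
    exact H974.hh_mono (by norm_num) (by norm_num) (by omega) (by omega) le_rfl
  ord K hK := by
    obtain ⟨c, C, hc, hC, ho⟩ := order K hK
    refine ⟨c, C, hc, hC, fun w h hw hh hwh => ?_⟩
    have h1 := ho w h (by omega) (by omega) (by exact_mod_cast hwh)
    unfold DD at h1
    rw [crossProb_eq, crossProb_eq]
    push_cast at h1 ⊢
    exact h1
  bdd K hK := by
    obtain ⟨c, C, hc, hC, ho⟩ := bdd K hK
    refine ⟨C, hC, fun w h hw hh hwh hhw => ?_⟩
    have h1 := ho w h (by omega) (by omega) (by exact_mod_cast hwh) (by exact_mod_cast hhw)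
    rw [crossProb_eq, crossProb_eq, crossProb_eq]
    push_cast at h1 ⊢
    exact ⟨h1.1.2, h1.2.2⟩
  mono w h hw := by
    rw [crossProb_eq, crossProb_eq]
    exact H974.hh_mono (by norm_num) (by norm_num) (by omega) le_rfl (by push_cast; omega)
  dual w h := by
    have h1 := dualhalf (w := (w:ℤ) + 1) (h := h) (by omega) (by omega)
    rw [crossProb_eq, crossProb_eq]
    push_cast
    have e : (w:ℤ) + 1 - 1 = w := by ring
    rw [e] at h1
    linarith
  low K hK := by
    obtain ⟨c, hc, -, hr⟩ := rsw K hK
    refine ⟨c, hc, fun w h hw hh hwh => ?_⟩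
    rw [crossProb_eq]
    exact hr w h (by omega) (by omega) (by exact_mod_cast hwh)
  har w w' h hw hww := by
    have h1 := har (w := w) (w' := w') (h := h) (by omega) (by omega)
    unfold DD at h1
    rw [crossProb_eq, crossProb_eq, crossProb_eq, crossProb_eq]
    push_cast
    exact h1
  scal K hK := by
    obtain ⟨c, C, hc, hC, s1, s2⟩ := scaling K hK
    have hKr : (0:ℝ) < K := by exact_mod_cast hK
    refine ⟨C, hC, ?_, ?_⟩
    · intro L L' l h1 h2 h3 h4 h5
      filter_upwards [s1 L L' l h1 h2 h3 h4 h5] with n hn
      rw [crossProb_eq, crossProb_eq, abs_le]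
      constructor
      · have := mul_nonneg hc.le (sub_nonneg.mpr h2.le)
        have := mul_nonneg hC.le (sub_nonneg.mpr h2.le)
        linarith [hn.1]
      · exact hn.2
    · intro L l l' h1 h2 h3 h4 h5
      filter_upwards [s2 L l l' h1 h2 h3 h4 h5] with n hn
      rw [crossProb_eq, crossProb_eq, abs_le]
      constructor
      · have := mul_nonneg hc.le (sub_nonneg.mpr h4.le)
        have := mul_nonneg hC.le (sub_nonneg.mpr h4.le)
        linarith [hn.1]
      · exact hn.2

end Pool.Agent.X127.AR
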